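import Pool.Agent.W712.RP.Stm

set_option autoImplicit false

open MeasureTheory Set Filter Topology Metric
open scoped ENNReal

namespace Pool.Agent.W291.RP
open Pool.Agent.W712.RP

variable {k : ℕ} {K : Set (EuclideanSpace ℝ (Fin k))}

theorem compl_ne (hk : 1 ≤ k) (hK : IsCompact K) : (Kᶜ).Nonempty := by
  by_contra h
  rw [Set.not_nonempty_iff_eq_empty, Set.compl_empty_iff] at h
  have : Nonempty (Fin k) := ⟨⟨0, by omega⟩⟩
  have : Nontrivial (EuclideanSpace ℝ (Fin k)) := inferInstance
  exact noncompact_univ (EuclideanSpace ℝ (Fin k)) (h ▸ hK)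

theorem dep_nonneg (z : EuclideanSpace ℝ (Fin k)) : 0 ≤ dep K z := infDist_nonneg

theorem dep_lip (z w : EuclideanSpace ℝ (Fin k)) : dep K z ≤ dep K w + dist z w := by
  unfold dep
  exact infDist_le_infDist_add_dist

theorem dep_cont : Continuous (dep K) := by
  unfold dep
  exact continuous_infDist_pt _

theorem mem_of_dep_pos {z : EuclideanSpace ℝ (Fin k)} (h : 0 < dep K z) : z ∈ K := by
  by_contra hz
  have : dep K z = 0 := by
    unfold dep
    exact infDist_zero_of_mem hz
  linarith

theorem ball_sub {z : EuclideanSpace ℝ (Fin k)} : ball z (dep K z) ⊆ K := by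
  intro y hy
  by_contra h
  have h1 : dep K z ≤ dist z y := by
    unfold dep
    exact infDist_le_dist_of_mem h
  rw [mem_ball, dist_comm] at hy
  linarith

theorem cball_sub (hK : IsClosed K) {z : EuclideanSpace ℝ (Fin k)} (hz : z ∈ K) {t : ℝ} (ht : t ≤ dep K z) :
    closedBall z t ⊆ K := by
  rcases (dep_nonneg (K := K) z).lt_or_eq with h | h
  · have h1 : closure (ball z (dep K z)) = closedBall z (dep K z) := closure_ball z h.ne'
    intro y hy
    have h2 : y ∈ closure (ball z (dep K z)) := by
      rw [h1]; exact closedBall_subset_closedBall ht hy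
    exact hK.closure_subset_iff.2 ball_sub h2
  · intro y hy
    rw [mem_closedBall] at hy
    have : dist y z ≤ 0 := hy.trans (ht.trans h.symm.le)
    have := dist_le_zero.1 this
    rwa [this]

theorem le_dep (hk : 1 ≤ k) (hK : IsCompact K) {z : EuclideanSpace ℝ (Fin k)} {t : ℝ}
    (h : closedBall z t ⊆ K) : t ≤ dep K z := by
  unfold dep
  rw [le_infDist (compl_ne hk hK)]
  intro y hy
  by_contra h1
  push Not at h1
  exact hy (h (by rw [mem_closedBall, dist_comm]; exact h1.le))

theorem isClosed_sup (hK : IsClosed K) (t : ℝ) : IsClosed {z | z ∈ K ∧ t ≤ dep K z} :=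
  hK.inter (isClosed_le continuous_const dep_cont)

theorem fin_vol (hK : IsCompact K) {S : Set (EuclideanSpace ℝ (Fin k))} (h : S ⊆ K) : volume S ≠ ∞ :=
  ((measure_mono h).trans_lt hK.measure_lt_top).ne

end Pool.Agent.W291.RP
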