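import Pool.Agent.W291.RP.Base
import Pool.Agent.W340.RKJ.BM

set_option autoImplicit false

open MeasureTheory Set Filter Topology Metric
open scoped ENNReal Pointwise

namespace Pool.Agent.W291.RP
open Pool.Agent.W712.RP

variable {k : ℕ} {K : Set (EuclideanSpace ℝ (Fin k))}

/-- Brunn-Minkowski, concave form with real numbers -/
theorem bm_conv (hk : 1 ≤ k) {θ : ℝ} (h0 : 0 < θ) (h1 : θ < 1) {A B D : Set (EuclideanSpace ℝ (Fin k))}
    (hA : MeasurableSet A) (hB : MeasurableSet B) (hD : MeasurableSet D)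
    (hA0 : 0 < (volume A).toReal) (hB0 : 0 < (volume B).toReal) (hD1 : volume D ≠ ∞)
    (h : ∀ x ∈ A, ∀ y ∈ B, (1 - θ) • x + θ • y ∈ D) :
    (1 - θ) * (volume A).toReal ^ ((k : ℝ)⁻¹) + θ * (volume B).toReal ^ ((k : ℝ)⁻¹) ≤
      (volume D).toReal ^ ((k : ℝ)⁻¹) := by
  have hkR : (k : ℝ) ≠ 0 := by
    have : (1 : ℝ) ≤ k := by exact_mod_cast hk
    linarith
  obtain ⟨a, ha⟩ : ∃ a, a = (volume A).toReal ^ ((k : ℝ)⁻¹) := ⟨_, rfl⟩
  obtain ⟨b, hb⟩ : ∃ b, b = (volume B).toReal ^ ((k : ℝ)⁻¹) := ⟨_, rfl⟩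
  have ha0 : 0 < a := by rw [ha]; exact Real.rpow_pos_of_pos hA0 _
  have hb0 : 0 < b := by rw [hb]; exact Real.rpow_pos_of_pos hB0 _
  have hak : a ^ k = (volume A).toReal := by
    rw [ha, ← Real.rpow_natCast, ← Real.rpow_mul hA0.le, inv_mul_cancel₀ hkR, Real.rpow_one]
  have hbk : b ^ k = (volume B).toReal := by
    rw [hb, ← Real.rpow_natCast, ← Real.rpow_mul hB0.le, inv_mul_cancel₀ hkR, Real.rpow_one]
  rw [← ha, ← hb]
  obtain ⟨S, hS⟩ : ∃ S, S = (1 - θ) * a + θ * b := ⟨_, rfl⟩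
  have h1θ : 0 < 1 - θ := by linarith
  have hS0 : 0 < S := by rw [hS]; positivity
  rw [← hS]
  obtain ⟨t, ht⟩ : ∃ t, t = θ * b / S := ⟨_, rfl⟩
  have ht0 : 0 < t := by rw [ht]; positivity
  have h1t : 1 - t = (1 - θ) * a / S := by
    rw [ht, eq_div_iff hS0.ne', sub_mul, div_mul_cancel₀ _ hS0.ne', one_mul, hS]; ring
  have h1t0 : 0 < 1 - t := by rw [h1t]; positivity
  have ht1 : t < 1 := by linarith
  have hAf : volume A ≠ ∞ := by
    intro h; rw [h] at hA0; simp at hA0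
  have hBf : volume B ≠ ∞ := by
    intro h; rw [h] at hB0; simp at hB0
  have hfr : Module.finrank ℝ (EuclideanSpace ℝ (Fin k)) = k := by simp
  have vA : volume ((S / a) • A) = ENNReal.ofReal (S ^ k) := by
    rw [Measure.addHaar_smul, hfr, ← ENNReal.ofReal_toReal hAf, ← ENNReal.ofReal_mul (abs_nonneg _)]
    congr 1
    rw [← hak, abs_of_nonneg (by positivity), ← mul_pow, div_mul_cancel₀ _ ha0.ne']
  have vB : volume ((S / b) • B) = ENNReal.ofReal (S ^ k) := by
    rw [Measure.addHaar_smul, hfr, ← ENNReal.ofReal_toReal hBf, ← ENNReal.ofReal_mul (abs_nonneg _)]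
    congr 1
    rw [← hbk, abs_of_nonneg (by positivity), ← mul_pow, div_mul_cancel₀ _ hb0.ne']
  have hmA : MeasurableSet ((S / a) • A) := hA.const_smul₀ _
  have hmB : MeasurableSet ((S / b) • B) := hB.const_smul₀ _
  have key := Pool.Agent.W340.RKJ.bm_mult t ht0 ht1 ((S / a) • A) ((S / b) • B) D hmA hmB hD (by
    rintro _ ⟨x, hx, rfl⟩ _ ⟨y, hy, rfl⟩
    have := h x hx y hy
    have e1 : (1 - t) • (S / a) • x = (1 - θ) • x := by
      rw [smul_smul, h1t]
      congr 1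
      field_simp
    have e2 : t • (S / b) • y = θ • y := by
      rw [smul_smul, ht]
      congr 1
      field_simp
    change (1 - t) • (S / a) • x + t • (S / b) • y ∈ D
    rw [e1, e2]
    exact this)
  rw [vA, vB, ← ENNReal.rpow_add_of_nonneg _ _ h1t0.le ht0.le, show (1 - t) + t = 1 by ring, ENNReal.rpow_one] at key
  have key2 : S ^ k ≤ (volume D).toReal := by
    rwa [ENNReal.ofReal_le_iff_le_toReal hD1] at key
  calc S = (S ^ k) ^ ((k : ℝ)⁻¹) := by
        rw [← Real.rpow_natCast, ← Real.rpow_mul hS0.le, mul_inv_cancel₀ hkR, Real.rpow_one]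
    _ ≤ _ := Real.rpow_le_rpow (by positivity) key2 (by positivity)

theorem pow_low {x y : ℝ} (hy : 0 ≤ y) (h : y ≤ x) (n : ℕ) :
    (n + 1) * y ^ n * (x - y) ≤ x ^ (n + 1) - y ^ (n + 1) := by
  induction n with
  | zero => simp
  | succ n ih =>
    have e : x ^ (n + 1 + 1) - y ^ (n + 1 + 1) = y * (x ^ (n + 1) - y ^ (n + 1)) + x ^ (n + 1) * (x - y) := by ring
    rw [e]
    have h1 : y * ((n + 1) * y ^ n * (x - y)) ≤ y * (x ^ (n + 1) - y ^ (n + 1)) := mul_le_mul_of_nonneg_left ih hy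
    have h2 : y ^ (n + 1) * (x - y) ≤ x ^ (n + 1) * (x - y) :=
      mul_le_mul_of_nonneg_right (pow_le_pow_left₀ hy h _) (by linarith)
    push_cast
    calc ((n : ℝ) + 1 + 1) * y ^ (n + 1) * (x - y) = y * ((n + 1) * y ^ n * (x - y)) + y ^ (n + 1) * (x - y) := by ring
      _ ≤ _ := add_le_add h1 h2

theorem pow_up {x y : ℝ} (hy : 0 ≤ y) (h : y ≤ x) (n : ℕ) :
    x ^ (n + 1) - y ^ (n + 1) ≤ (n + 1) * x ^ n * (x - y) := by
  induction n with
  | zero => simp
  | succ n ih =>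
    have hx : 0 ≤ x := hy.trans h
    have e : x ^ (n + 1 + 1) - y ^ (n + 1 + 1) = x * (x ^ (n + 1) - y ^ (n + 1)) + y ^ (n + 1) * (x - y) := by ring
    rw [e]
    have h1 : x * (x ^ (n + 1) - y ^ (n + 1)) ≤ x * ((n + 1) * x ^ n * (x - y)) := mul_le_mul_of_nonneg_left ih hx
    have h2 : y ^ (n + 1) * (x - y) ≤ x ^ (n + 1) * (x - y) :=
      mul_le_mul_of_nonneg_right (pow_le_pow_left₀ hy h _) (by linarith)
    push_cast
    calc _ ≤ x * ((n + 1) * x ^ n * (x - y)) + x ^ (n + 1) * (x - y) := add_le_add h1 h2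
      _ = _ := by ring

/-- inner parallel bodies under convex combinations -/
theorem inner_comb (hk : 1 ≤ k) (hK : Body K) {a b θ : ℝ} (ha : 0 ≤ a) (hb : 0 ≤ b) (h0 : 0 ≤ θ) (h1 : θ ≤ 1)
    {x y : EuclideanSpace ℝ (Fin k)} (hx : x ∈ K) (hxa : a ≤ dep K x) (hy : y ∈ K) (hyb : b ≤ dep K y) :
    (1 - θ) • x + θ • y ∈ K ∧ (1 - θ) * a + θ * b ≤ dep K ((1 - θ) • x + θ • y) := by
  refine ⟨hK.convex hx hy (by linarith) h0 (by ring), ?_⟩
  refine le_dep hk hK.compact ?_
  intro p hp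
  rw [mem_closedBall, dist_eq_norm] at hp
  obtain ⟨r, hr⟩ : ∃ r, r = (1 - θ) * a + θ * b := ⟨_, rfl⟩
  rw [← hr] at hp
  have hr0 : 0 ≤ r := (norm_nonneg _).trans hp
  rcases hr0.lt_or_eq with hrp | hrz
  · obtain ⟨e, he⟩ : ∃ e, e = r⁻¹ • (p - ((1 - θ) • x + θ • y)) := ⟨_, rfl⟩
    have hen : ‖e‖ ≤ 1 := by
      rw [he, norm_smul, norm_inv, Real.norm_of_nonneg hr0, inv_mul_le_iff₀ hrp]
      linarith
    have hpe : p = ((1 - θ) • x + θ • y) + r • e := by
      rw [he, smul_smul, mul_inv_cancel₀ hrp.ne', one_smul]; abel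
    have m1 : x + a • e ∈ K := by
      apply cball_sub hK.compact.isClosed hx hxa
      rw [mem_closedBall, dist_eq_norm, add_sub_cancel_left, norm_smul, Real.norm_of_nonneg ha]
      nlinarith
    have m2 : y + b • e ∈ K := by
      apply cball_sub hK.compact.isClosed hy hyb
      rw [mem_closedBall, dist_eq_norm, add_sub_cancel_left, norm_smul, Real.norm_of_nonneg hb]
      nlinarith
    have m3 := hK.convex m1 m2 (by linarith : (0:ℝ) ≤ 1 - θ) h0 (by ring)
    have e1 : p = (1 - θ) • (x + a • e) + θ • (y + b • e) := by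
      rw [hpe, hr]
      simp only [smul_add, smul_smul, add_smul]
      abel
    rw [e1]; exact m3
  · have : p = (1 - θ) • x + θ • y := by
      rw [← hrz] at hp
      exact sub_eq_zero.1 (norm_le_zero_iff.1 hp)
    rw [this]
    exact hK.convex hx hy (by linarith) h0 (by ring)

theorem inV_zero : inV K 0 = (volume K).toReal := by
  unfold inV
  congr 2
  ext z
  simp [dep_nonneg]

/-- lower bound for the volume of inner parallel bodies -/
theorem inV_low (hk : 1 ≤ k) (hK : Body K) (hB : closedBall 0 1 ⊆ K) {u : ℝ} (h0 : 0 ≤ u) (h1 : u ≤ 1) :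
    (1 - u) ^ k * (volume K).toReal ≤ inV K u := by
  have hfr : Module.finrank ℝ (EuclideanSpace ℝ (Fin k)) = k := by simp
  have hsub : (1 - u) • K ⊆ {z | z ∈ K ∧ u ≤ dep K z} := by
    rintro _ ⟨x, hx, rfl⟩
    have h0K : (0 : EuclideanSpace ℝ (Fin k)) ∈ K := hB (by simp)
    have hd0 : (1:ℝ) ≤ dep K (0 : EuclideanSpace ℝ (Fin k)) := le_dep hk hK.compact hB
    have := inner_comb hk hK (a := 0) (b := 1) (θ := u) le_rfl zero_le_one h0 h1 hx (dep_nonneg x) h0K hd0
    simpa using this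
  unfold inV
  have hf := fin_vol hK.compact (S := {z | z ∈ K ∧ u ≤ dep K z}) (fun z hz => hz.1)
  calc (1 - u) ^ k * (volume K).toReal = (volume ((1 - u) • K)).toReal := by
        rw [Measure.addHaar_smul, hfr, ENNReal.toReal_mul, ENNReal.toReal_ofReal (abs_nonneg _),
          abs_of_nonneg (pow_nonneg (by linarith) _)]
    _ ≤ _ := ENNReal.toReal_mono hf (measure_mono hsub)

theorem vol_pos (hB : closedBall 0 1 ⊆ K) (hK : Body K) : 0 < (volume K).toReal := by
  apply ENNReal.toReal_pos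
  · have h1 : 0 < volume (ball (0 : EuclideanSpace ℝ (Fin k)) 1) := measure_ball_pos _ _ one_pos
    exact (h1.trans_le (measure_mono (ball_subset_closedBall.trans hB))).ne'
  · exact hK.compact.measure_lt_top.ne

theorem inV_anti (hK : Body K) {s t : ℝ} (h : s ≤ t) : inV K t ≤ inV K s := by
  unfold inV
  exact ENNReal.toReal_mono (fin_vol hK.compact fun z hz => hz.1)
    (measure_mono fun z hz => ⟨hz.1, h.trans hz.2⟩)

theorem u2 : S_U2 := by
  intro k hk K hK hB s t hs ht hst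
  have hkR : (k : ℝ) ≠ 0 := by
    have : (1 : ℝ) ≤ k := by exact_mod_cast hk
    linarith
  have hV := vol_pos hB hK
  have hpos : ∀ u : ℝ, 0 ≤ u → u < 1 → 0 < inV K u := by
    intro u h0 h1
    refine lt_of_lt_of_le ?_ (inV_low hk hK hB h0 h1.le)
    have : 0 < 1 - u := by linarith
    positivity
  rcases hs.lt_or_eq with hs0 | rfl
  swap
  · rw [zero_add]
    have h1 : (1 - t) ^ (k - 1) ≤ 1 := pow_le_one₀ (by linarith) (by linarith)
    have h2 := inV_anti hK ht
    nlinarith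
  rcases ht.lt_or_eq with ht0 | rfl
  swap
  · simp
  obtain ⟨f, hf⟩ : ∃ f : ℝ → ℝ, f = fun u => inV K u ^ ((k : ℝ)⁻¹) := ⟨_, rfl⟩
  have hfk : ∀ u : ℝ, 0 ≤ u → u < 1 → (f u) ^ k = inV K u := by
    intro u h0 h1
    rw [hf]
    simp only
    rw [← Real.rpow_natCast, ← Real.rpow_mul (hpos u h0 h1).le, inv_mul_cancel₀ hkR, Real.rpow_one]
  have hf0 : ∀ u : ℝ, 0 ≤ u → u < 1 → 0 < f u := by
    intro u h0 h1
    rw [hf]
    exact Real.rpow_pos_of_pos (hpos u h0 h1) _
  have hmeas : ∀ u : ℝ, MeasurableSet {z | z ∈ K ∧ u ≤ dep K z} := fun u =>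
    (isClosed_sup hK.compact.isClosed u).measurableSet
  have hconc : ∀ θ : ℝ, 0 < θ → θ < 1 → (1 - θ) * f 0 + θ * f (s + t) ≤ f (θ * (s + t)) := by
    intro θ h0 h1
    have := bm_conv hk h0 h1 (hmeas 0) (hmeas (s + t)) (hmeas (θ * (s + t))) (hpos 0 le_rfl one_pos)
      (hpos (s + t) (by linarith) hst) (fin_vol hK.compact fun z hz => hz.1) (by
        rintro x ⟨hx, hxa⟩ y ⟨hy, hyb⟩
        have h2 := inner_comb hk hK (a := 0) (b := s + t) (θ := θ) le_rfl (by linarith) h0.le h1.le hx hxa hy hyb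
        refine ⟨h2.1, ?_⟩
        have h3 := h2.2
        rwa [mul_zero, zero_add] at h3)
    rw [hf]
    exact this
  have hst0 : 0 < s + t := by linarith
  have c1 := hconc (s / (s + t)) (by positivity) (by rw [div_lt_one hst0]; linarith)
  have c2 := hconc (t / (s + t)) (by positivity) (by rw [div_lt_one hst0]; linarith)
  rw [div_mul_cancel₀ _ hst0.ne'] at c1 c2
  have c3 : f 0 + f (s + t) ≤ f s + f t := by
    have e1 : (1 - s / (s + t)) * f 0 + s / (s + t) * f (s + t) + ((1 - t / (s + t)) * f 0 + t / (s + t) * f (s + t)) =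
        f 0 + f (s + t) := by
      field_simp
      ring
    linarith
  have a0 : (0:ℝ) ≤ 0 := le_rfl
  -- monotonicity
  have m1 : f t ≤ f 0 := by
    rw [hf]
    exact Real.rpow_le_rpow (hpos t ht (by linarith)).le (inV_anti hK ht) (by positivity)
  have m2 : f (s + t) ≤ f s := by
    rw [hf]
    exact Real.rpow_le_rpow (hpos _ (by linarith) hst).le (inV_anti hK (by linarith)) (by positivity)
  have low : (1 - (s + t)) * f 0 ≤ f (s + t) := by
    have h1 := inV_low hk hK hB (u := s + t) (by linarith) hst.le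
    have h2 : 0 ≤ 1 - (s + t) := by linarith
    calc (1 - (s + t)) * f 0 = ((1 - (s + t)) ^ k * inV K 0) ^ ((k : ℝ)⁻¹) := by
          rw [Real.mul_rpow (by positivity) (hpos 0 le_rfl one_pos).le, ← Real.rpow_natCast,
            ← Real.rpow_mul h2, mul_inv_cancel₀ hkR, Real.rpow_one, hf]
      _ ≤ inV K (s + t) ^ ((k : ℝ)⁻¹) := by
          apply Real.rpow_le_rpow (mul_nonneg (by positivity) (hpos 0 le_rfl one_pos).le) _ (by positivity)
          rw [inV_zero]; exact h1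
      _ = f (s + t) := by rw [hf]
  obtain ⟨n, rfl⟩ : ∃ n, k = n + 1 := ⟨k - 1, by omega⟩
  rw [Nat.add_sub_cancel]
  rw [← hfk 0 le_rfl one_pos, ← hfk t ht (by linarith), ← hfk s hs (by linarith), ← hfk (s + t) (by linarith) hst]
  have p1 := pow_low (hf0 (s + t) (by linarith) hst).le m2 n
  have p2 := pow_up (hf0 t ht (by linarith)).le m1 n
  have h2 : 0 ≤ 1 - (s + t) := by linarith
  have f0 := (hf0 0 le_rfl one_pos).le
  calc (1 - (s + t)) ^ n * (f 0 ^ (n + 1) - f t ^ (n + 1))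
      ≤ (1 - (s + t)) ^ n * ((n + 1) * f 0 ^ n * (f 0 - f t)) := mul_le_mul_of_nonneg_left p2 (by positivity)
    _ = (n + 1) * ((1 - (s + t)) * f 0) ^ n * (f 0 - f t) := by rw [mul_pow]; ring
    _ ≤ (n + 1) * (f (s + t)) ^ n * (f 0 - f t) := by
        apply mul_le_mul_of_nonneg_right _ (by linarith)
        apply mul_le_mul_of_nonneg_left _ (by positivity)
        exact pow_le_pow_left₀ (mul_nonneg h2 f0) low n
    _ ≤ (n + 1) * (f (s + t)) ^ n * (f s - f (s + t)) := by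
        apply mul_le_mul_of_nonneg_left (by linarith)
        have := (hf0 (s + t) (by linarith) hst).le
        positivity
    _ ≤ _ := p1

end Pool.Agent.W291.RP
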