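import Pool.Agent.W291.RP.Base

set_option autoImplicit false

open MeasureTheory Set Filter Topology Metric
open scoped ENNReal

namespace Pool.Agent.W291.RP
open Pool.Agent.W712.RP

variable {k : ℕ} {K : Set (EuclideanSpace ℝ (Fin k))}

/-- expanding maps do not decrease the volume -/
theorem vol_le_of_expand {W : Set (EuclideanSpace ℝ (Fin k))}
    (f : EuclideanSpace ℝ (Fin k) → EuclideanSpace ℝ (Fin k))
    (h : ∀ w ∈ W, ∀ w' ∈ W, dist w w' ≤ dist (f w) (f w')) : volume W ≤ volume (f '' W) := by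
  classical
  obtain ⟨g, hg⟩ : ∃ g : EuclideanSpace ℝ (Fin k) → EuclideanSpace ℝ (Fin k), g = Function.invFunOn f W := ⟨_, rfl⟩
  have hinj : Set.InjOn f W := by
    intro w hw w' hw' he
    have := h w hw w' hw'
    rw [he, dist_self] at this
    exact dist_le_zero.1 this
  have hgf : ∀ w ∈ W, g (f w) = w := by
    intro w hw
    rw [hg]
    exact hinj.leftInvOn_invFunOn hw
  have hW : W ⊆ g '' (f '' W) := by
    intro w hw
    exact ⟨f w, ⟨w, hw, rfl⟩, hgf w hw⟩
  have hL : LipschitzOnWith 1 g (f '' W) := by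
    apply LipschitzOnWith.of_dist_le_mul
    rintro _ ⟨w, hw, rfl⟩ _ ⟨w', hw', rfl⟩
    rw [hgf w hw, hgf w' hw']
    simpa using h w hw w' hw'
  obtain ⟨μ, hμ⟩ : ∃ μ : Measure (EuclideanSpace ℝ (Fin k)),
    μ = MeasureTheory.Measure.hausdorffMeasure (Module.finrank ℝ (EuclideanSpace ℝ (Fin k)) : ℝ) := ⟨_, rfl⟩
  have hμH : μ.IsAddHaarMeasure := by
    rw [hμ]; exact isAddHaarMeasure_hausdorffMeasure
  have h1 : μ W ≤ μ (f '' W) := by
    calc μ W ≤ μ (g '' (f '' W)) := measure_mono hW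
      _ ≤ μ (f '' W) := by
        rw [hμ]
        have := hL.hausdorffMeasure_image_le (d := (Module.finrank ℝ (EuclideanSpace ℝ (Fin k)) : ℝ)) (by positivity)
        simpa using this
  have h2 : (volume : Measure (EuclideanSpace ℝ (Fin k))) =
      (Measure.addHaarScalarFactor volume μ) • μ := Measure.isAddLeftInvariant_eq_smul volume μ
  rw [h2]
  simp only [Measure.smul_apply]
  gcongr

/-- support inequality at a nearest boundary point -/
theorem support_ineq (hK : Body K) {w x : EuclideanSpace ℝ (Fin k)} {lam : ℝ}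
    (hl : 0 < lam) (hx : x ∈ closure Kᶜ) (hd : ‖x - w‖ = lam) (hb : ball w lam ⊆ K)
    {w' : EuclideanSpace ℝ (Fin k)} {lam' : ℝ} (hl' : 0 ≤ lam') (hb' : closedBall w' lam' ⊆ K) :
    inner ℝ (w' - x) (lam⁻¹ • (x - w)) ≤ -lam' := by
  obtain ⟨ν, hν⟩ : ∃ ν, ν = lam⁻¹ • (x - w) := ⟨_, rfl⟩
  rw [← hν]
  have hνn : ‖ν‖ = 1 := by
    rw [hν, norm_smul, norm_inv, Real.norm_of_nonneg hl.le, hd, inv_mul_cancel₀ hl.ne']
  obtain ⟨y, hy⟩ : ∃ y, y = w' + lam' • ν := ⟨_, rfl⟩
  have hyK : y ∈ K := by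
    apply hb'
    rw [hy, mem_closedBall, dist_eq_norm, add_sub_cancel_left, norm_smul, Real.norm_of_nonneg hl', hνn, mul_one]
  have hνν : inner ℝ ν ν = (1:ℝ) := by
    rw [real_inner_self_eq_norm_sq, hνn]; norm_num
  suffices h : inner ℝ (y - x) ν ≤ (0:ℝ) by
    have e : y - x = (w' - x) + lam' • ν := by rw [hy]; abel
    rw [e, inner_add_left, real_inner_smul_left, hνν] at h
    linarith
  by_contra hcon
  push Not at hcon
  have hxw : x - w = lam • ν := by
    rw [hν, smul_smul, mul_inv_cancel₀ hl.ne', one_smul]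
  -- choose small ε
  obtain ⟨p, hp⟩ : ∃ p : ℝ, p = inner ℝ (y - x) ν := ⟨_, rfl⟩
  rw [← hp] at hcon
  obtain ⟨N, hN⟩ : ∃ N : ℝ, N = ‖y - x‖ ^ 2 := ⟨_, rfl⟩
  have hN0 : 0 ≤ N := by rw [hN]; positivity
  obtain ⟨ε, hε⟩ : ∃ ε : ℝ, ε = lam * p / (N + 1) := ⟨_, rfl⟩
  have hε0 : 0 < ε := by rw [hε]; positivity
  obtain ⟨q, hq⟩ : ∃ q, q = x - ε • (y - x) := ⟨_, rfl⟩
  have hqw : ‖q - w‖ ^ 2 < lam ^ 2 := by
    have e : q - w = lam • ν - ε • (y - x) := by rw [hq, ← hxw]; abel
    rw [e, norm_sub_sq_real, norm_smul, norm_smul, hνn, real_inner_smul_left, real_inner_smul_right,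
      real_inner_comm, ← hp, Real.norm_of_nonneg hl.le, Real.norm_of_nonneg hε0.le, mul_pow, mul_pow, ← hN]
    have h1 : ε * (N + 1) = lam * p := by rw [hε]; field_simp
    nlinarith [mul_pos hε0 hl, mul_pos hε0 (mul_pos hl hcon), sq_nonneg ε, mul_nonneg hε0.le hN0]
  have hqi : q ∈ interior K := by
    apply interior_maximal hb isOpen_ball
    rw [mem_ball, dist_eq_norm]
    exact lt_of_pow_lt_pow_left₀ 2 hl.le hqw
  have hxi : x ∈ interior K := by
    have h1 := hK.convex.combo_interior_self_mem_interior hqi hyK (a := 1 / (1 + ε)) (b := ε / (1 + ε))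
      (by positivity) (by positivity) (by field_simp)
    have e : (1 / (1 + ε)) • q + (ε / (1 + ε)) • y = x := by
      rw [hq]
      have hne : (1 + ε) ≠ 0 := by positivity
      have : (1 / (1 + ε)) • (x - ε • (y - x)) + (ε / (1 + ε)) • y = ((1 + ε) / (1 + ε)) • x := by
        simp only [smul_sub, smul_smul, add_div, add_smul]
        have e2 : (1 / (1 + ε) * ε) = ε / (1 + ε) := by ring
        rw [e2]
        abel
      rw [this, div_self hne, one_smul]
    rwa [e] at h1
  rw [closure_compl] at hx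
  exact hx hxi

theorem isClosed_good (hK : Body K) {s : ℝ} (hs : 0 < s) : IsClosed (Good K s) := by
  have e : Good K s = Prod.fst '' {p : EuclideanSpace ℝ (Fin k) × EuclideanSpace ℝ (Fin k) |
      p ∈ K ×ˢ K ∧ dist p.1 p.2 ≤ s ∧ s + dep K p.1 ≤ dep K p.2} := by
    ext z
    constructor
    · rintro ⟨hz, w, h1, h2⟩
      refine ⟨(z, w), ⟨⟨hz, ?_⟩, h1, h2⟩, rfl⟩
      exact mem_of_dep_pos (lt_of_lt_of_le (by linarith [dep_nonneg (K := K) z]) h2)
    · rintro ⟨⟨z', w⟩, ⟨⟨hz, hw⟩, h1, h2⟩, rfl⟩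
      exact ⟨hz, w, h1, h2⟩
  rw [e]
  have hc : IsCompact {p : EuclideanSpace ℝ (Fin k) × EuclideanSpace ℝ (Fin k) |
      p ∈ K ×ˢ K ∧ dist p.1 p.2 ≤ s ∧ s + dep K p.1 ≤ dep K p.2} := by
    apply (hK.compact.prod hK.compact).inter_right
    have h1 : IsClosed {p : EuclideanSpace ℝ (Fin k) × EuclideanSpace ℝ (Fin k) | dist p.1 p.2 ≤ s} :=
      isClosed_le (continuous_fst.dist continuous_snd) continuous_const
    have h2 : IsClosed {p : EuclideanSpace ℝ (Fin k) × EuclideanSpace ℝ (Fin k) | s + dep K p.1 ≤ dep K p.2} :=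
      isClosed_le (continuous_const.add (dep_cont.comp continuous_fst)) (dep_cont.comp continuous_snd)
    exact h1.inter h2
  exact (hc.image continuous_fst).isClosed

theorem u3 : S_U3 := by
  intro k hk K hK s t hs ht
  refine ⟨isClosed_good hK hs, ?_⟩
  obtain ⟨W, hW⟩ : ∃ W : Set (EuclideanSpace ℝ (Fin k)), W = {w | w ∈ K ∧ s ≤ dep K w ∧ dep K w < s + t} := ⟨_, rfl⟩
  have hne := compl_ne hk hK.compact
  -- nearest points
  have hnear : ∀ w : EuclideanSpace ℝ (Fin k), ∃ x ∈ closure Kᶜ, dep K w = dist w x := by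
    intro w
    obtain ⟨x, hx, hd⟩ := isClosed_closure.exists_infDist_eq_dist (closure_nonempty_iff.mpr hne) w
    refine ⟨x, hx, ?_⟩
    unfold dep
    rw [← infDist_closure]
    exact hd
  choose X hX1 hX2 using hnear
  obtain ⟨f, hf⟩ : ∃ f : EuclideanSpace ℝ (Fin k) → EuclideanSpace ℝ (Fin k),
    f = fun w => w + s • ((dep K w)⁻¹ • (X w - w)) := ⟨_, rfl⟩
  have hWpos : ∀ w ∈ W, 0 < dep K w := by
    intro w hw
    rw [hW] at hw
    linarith [hw.2.1]
  have hXn : ∀ w, ‖X w - w‖ = dep K w := by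
    intro w
    rw [hX2 w, dist_comm, dist_eq_norm]
  have hνn : ∀ w ∈ W, ‖(dep K w)⁻¹ • (X w - w)‖ = 1 := by
    intro w hw
    have := hWpos w hw
    rw [norm_smul, hXn, norm_inv, Real.norm_of_nonneg this.le, inv_mul_cancel₀ this.ne']
  -- the image is good
  have himg : f '' W ⊆ {z | z ∈ Good K s ∧ dep K z < t} := by
    rintro _ ⟨w, hw, rfl⟩
    have hp := hWpos w hw
    have hw' := hw
    rw [hW] at hw'
    obtain ⟨hwK, hw1, hw2⟩ := hw'
    have hfw : f w = w + s • ((dep K w)⁻¹ • (X w - w)) := by rw [hf]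
    have hdw : dist (f w) w = s := by
      rw [hfw, dist_eq_norm, add_sub_cancel_left, norm_smul, hνn w hw, mul_one, Real.norm_of_nonneg hs.le]
    have hdx : dist (f w) (X w) = dep K w - s := by
      have e : f w - X w = -((dep K w - s) • ((dep K w)⁻¹ • (X w - w))) := by
        rw [hfw, sub_smul, smul_smul (dep K w), mul_inv_cancel₀ hp.ne', one_smul]
        abel
      rw [dist_eq_norm, e, norm_neg, norm_smul, hνn w hw, mul_one, Real.norm_of_nonneg (by linarith)]
    have hle : dep K (f w) ≤ dep K w - s := by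
      rw [← hdx]
      unfold dep
      rw [← infDist_closure]
      exact infDist_le_dist_of_mem (hX1 w)
    have hge : dep K w - s ≤ dep K (f w) := by
      have := dep_lip (K := K) w (f w)
      rw [dist_comm, hdw] at this
      linarith
    refine ⟨⟨?_, w, hdw.le, by linarith⟩, by linarith⟩
    apply cball_sub hK.compact.isClosed hwK le_rfl
    rw [mem_closedBall, hdw]
    exact hw1
  -- expansion
  have hexp : ∀ w ∈ W, ∀ w' ∈ W, dist w w' ≤ dist (f w) (f w') := by
    intro w hw w' hw'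
    obtain ⟨ν, hν⟩ : ∃ ν, ν = (dep K w)⁻¹ • (X w - w) := ⟨_, rfl⟩
    obtain ⟨ν', hν'⟩ : ∃ ν', ν' = (dep K w')⁻¹ • (X w' - w') := ⟨_, rfl⟩
    have hp := hWpos w hw
    have hp' := hWpos w' hw'
    have hwK : w ∈ K := mem_of_dep_pos hp
    have hwK' : w' ∈ K := mem_of_dep_pos hp'
    have s1 := support_ineq hK hp (hX1 w) (hXn w) ball_sub hp'.le (cball_sub hK.compact.isClosed hwK' le_rfl)
    have s2 := support_ineq hK hp' (hX1 w') (hXn w') ball_sub hp.le (cball_sub hK.compact.isClosed hwK le_rfl)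
    rw [← hν] at s1
    rw [← hν'] at s2
    have hνn1 : ‖ν‖ = 1 := by rw [hν]; exact hνn w hw
    have hνn2 : ‖ν'‖ = 1 := by rw [hν']; exact hνn w' hw'
    have hxw : X w = w + dep K w • ν := by
      rw [hν, smul_smul, mul_inv_cancel₀ hp.ne', one_smul]; abel
    have hxw' : X w' = w' + dep K w' • ν' := by
      rw [hν', smul_smul, mul_inv_cancel₀ hp'.ne', one_smul]; abel
    have i1 : inner ℝ ν ν = (1:ℝ) := by rw [real_inner_self_eq_norm_sq, hνn1]; norm_num
    have i2 : inner ℝ ν' ν' = (1:ℝ) := by rw [real_inner_self_eq_norm_sq, hνn2]; norm_num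
    have t1 : inner ℝ (w' - w) ν ≤ dep K w - dep K w' := by
      have e : w' - X w = (w' - w) - dep K w • ν := by rw [hxw]; abel
      rw [e, inner_sub_left, real_inner_smul_left, i1] at s1
      linarith
    have t2 : inner ℝ (w - w') ν' ≤ dep K w' - dep K w := by
      have e : w - X w' = (w - w') - dep K w' • ν' := by rw [hxw']; abel
      rw [e, inner_sub_left, real_inner_smul_left, i2] at s2
      linarith
    have t3 : 0 ≤ inner ℝ (w - w') (ν - ν') := by
      rw [inner_sub_right]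
      have e : inner ℝ (w - w') ν = -inner ℝ (w' - w) ν := by
        rw [← inner_neg_left, neg_sub]
      rw [e]
      linarith
    have hfw : f w = w + s • ν := by rw [hf, hν]
    have hfw' : f w' = w' + s • ν' := by rw [hf, hν']
    rw [dist_eq_norm, dist_eq_norm]
    have e : f w - f w' = (w - w') + s • (ν - ν') := by rw [hfw, hfw', smul_sub]; abel
    have h2 : ‖w - w'‖ ^ 2 ≤ ‖f w - f w'‖ ^ 2 := by
      rw [e, norm_add_sq_real, real_inner_smul_right]
      have := mul_nonneg hs.le t3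
      nlinarith [sq_nonneg ‖s • (ν - ν')‖]
    exact le_of_sq_le_sq h2 (norm_nonneg _)
  have hvol : volume W ≤ volume {z | z ∈ Good K s ∧ dep K z < t} :=
    (vol_le_of_expand f hexp).trans (measure_mono himg)
  have hfin : volume {z | z ∈ Good K s ∧ dep K z < t} ≠ ∞ := fin_vol hK.compact (fun z hz => hz.1.1)
  have hWv : (volume W).toReal = inV K s - inV K (s + t) := by
    unfold inV
    have e : W = {z | z ∈ K ∧ s ≤ dep K z} \ {z | z ∈ K ∧ s + t ≤ dep K z} := by
      rw [hW]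
      ext z
      simp only [Set.mem_ofPred_eq, Set.mem_sdiff, not_and, not_le]
      constructor
      · rintro ⟨h1, h2, h3⟩
        exact ⟨⟨h1, h2⟩, fun _ => h3⟩
      · rintro ⟨⟨h1, h2⟩, h3⟩
        exact ⟨h1, h2, h3 h1⟩
    have hsub : {z | z ∈ K ∧ s + t ≤ dep K z} ⊆ {z | z ∈ K ∧ s ≤ dep K z} := by
      intro z hz
      exact ⟨hz.1, by linarith [hz.2]⟩
    rw [e, measure_sdiff hsub (isClosed_sup hK.compact.isClosed (s + t)).measurableSet.nullMeasurableSet
      (fin_vol hK.compact fun z hz => hz.1),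
      ENNReal.toReal_sub_of_le (measure_mono hsub) (fin_vol hK.compact fun z hz => hz.1)]
  rw [← hWv]
  exact ENNReal.toReal_mono hfin hvol

end Pool.Agent.W291.RP
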