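import Pool.Agent.W291.RP.Base

set_option autoImplicit false

open MeasureTheory Set Filter Topology Metric
open scoped ENNReal

namespace Pool.Agent.W291.RP
open Pool.Agent.W712.RP

theorem u6 : S_U1 → S_U3 → S_U4 → S_U5 → S_U6 := by
  intro h1 _h3 h4 h5 k hk K hK hB
  have hkR : (1 : ℝ) ≤ k := by exact_mod_cast hk
  obtain ⟨c, hc, hU1⟩ := h1 k hk
  obtain ⟨a, ha⟩ : ∃ a : ℝ, a = ((k : ℝ) - 1) / 2 := ⟨_, rfl⟩
  obtain ⟨b, hb⟩ : ∃ b : ℝ, b = ((k : ℝ) + 1) / 2 := ⟨_, rfl⟩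
  obtain ⟨α, hα⟩ : ∃ α : ℝ, α = 2 / ((k : ℝ) + 1) := ⟨_, rfl⟩
  have ha0 : 0 ≤ a := by rw [ha]; linarith
  have hb0 : 0 < b := by rw [hb]; linarith
  have hα0 : 0 < α := by rw [hα]; positivity
  have hbα : b * α = 1 := by rw [hb, hα]; field_simp
  have haα : a * α = 1 - α := by rw [ha, hα]; field_simp; ring
  have hkα : k * α = 1 + a * α := by rw [ha, hα]; field_simp; ring
  have hα1 : α ≤ 1 := by
    rw [hα, div_le_one (by linarith)]; linarith
  have haα0 : 0 ≤ a * α := by positivity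
  have hab : a + b = k := by rw [ha, hb]; ring
  obtain ⟨V, hV⟩ : ∃ V : ℝ, V = (volume K).toReal := ⟨_, rfl⟩
  have hV0 : 0 ≤ V := by rw [hV]; exact ENNReal.toReal_nonneg
  obtain ⟨ρ, hρ⟩ : ∃ ρ : ℝ, ρ = (1 / 2 : ℝ) ^ α := ⟨_, rfl⟩
  have hρ0 : 0 < ρ := by rw [hρ]; positivity
  have hρ1 : ρ < 1 := by rw [hρ]; exact Real.rpow_lt_one (by norm_num) (by norm_num) hα0
  obtain ⟨G, hG⟩ : ∃ G : ℝ, G = (1 - ρ)⁻¹ := ⟨_, rfl⟩
  have hG0 : 0 < G := by rw [hG]; exact inv_pos.2 (by linarith)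
  obtain ⟨C', hC'⟩ : ∃ C' : ℝ, C' = V * (16 * k + 20 * k ^ 2 * G + 6 * k ^ 2 + 8 ^ (k * α)) := ⟨_, rfl⟩
  refine ⟨C' * c ^ (-α), fun t ht => ?_⟩
  rw [← hα]
  -- parameter x
  obtain ⟨x, hx⟩ : ∃ x : ℝ, x = (t / c) ^ ((k : ℝ)⁻¹) := ⟨_, rfl⟩
  have htc : 0 < t / c := by positivity
  have hx0 : 0 < x := by rw [hx]; exact Real.rpow_pos_of_pos htc _
  have hxk : x ^ (k : ℝ) = t / c := by
    rw [hx, ← Real.rpow_mul htc.le, inv_mul_cancel₀ (by linarith), Real.rpow_one]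
  obtain ⟨P, hP⟩ : ∃ P : ℝ, P = x ^ (k * α) := ⟨_, rfl⟩
  have hP0 : 0 < P := by rw [hP]; exact Real.rpow_pos_of_pos hx0 _
  have hPt : c ^ (-α) * t ^ α = P := by
    rw [hP, Real.rpow_mul hx0.le, hxk, Real.div_rpow ht.le hc.le, Real.rpow_neg hc.le]
    field_simp
  rw [mul_assoc, hPt]
  -- the set
  obtain ⟨A, hA⟩ : ∃ A : Set (EuclideanSpace ℝ (Fin k)), A = {z | z ∈ K ∧ (volume (Mac K z 1)).toReal ≤ t} := ⟨_, rfl⟩
  rw [← hA]
  have hAK : A ⊆ K := by rw [hA]; exact fun z hz => hz.1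
  have finK : ∀ S : Set (EuclideanSpace ℝ (Fin k)), S ⊆ K → volume S ≠ ∞ := fun S h => fin_vol hK.compact h
  have mono : ∀ S T : Set (EuclideanSpace ℝ (Fin k)), T ⊆ K → S ⊆ T → (volume S).toReal ≤ (volume T).toReal :=
    fun S T h1 h2 => ENNReal.toReal_mono (finK T h1) (measure_mono h2)
  have union : ∀ S T : Set (EuclideanSpace ℝ (Fin k)), S ⊆ K → T ⊆ K →
      (volume (S ∪ T)).toReal ≤ (volume S).toReal + (volume T).toReal := by
    intro S T h1 h2
    rw [← ENNReal.toReal_add (finK S h1) (finK T h2)]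
    exact ENNReal.toReal_mono (ENNReal.add_ne_top.2 ⟨finK S h1, finK T h2⟩) (measure_union_le _ _)
  -- fact (a)
  have fa : ∀ z ∈ A, dep K z ≤ x := by
    intro z hz
    rw [hA] at hz
    rcases (dep_nonneg (K := K) z).lt_or_eq with hd | hd
    · have h := hU1 K hK z z (dep K z) (dep K z) hd le_rfl (cball_sub hK.compact.isClosed hz.1 le_rfl) (by simp)
      rw [← ha, ← hb, mul_assoc, ← Real.rpow_add hd, hab] at h
      have h2 : (dep K z) ^ (k : ℝ) ≤ x ^ (k : ℝ) := by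
        rw [hxk, le_div_iff₀ hc]
        linarith [hz.2]
      exact (Real.rpow_le_rpow_iff hd.le hx0.le (by linarith)).1 h2
    · rw [← hd]; exact hx0.le
  -- the function τ
  obtain ⟨τ, hτ⟩ : ∃ τ : ℝ → ℝ, τ = fun σ => P * σ ^ (-(a * α)) := ⟨_, rfl⟩
  have hτ0 : ∀ σ : ℝ, 0 < σ → 0 < τ σ := by
    intro σ hσ
    rw [hτ]
    have := Real.rpow_pos_of_pos hσ (-(a * α))
    positivity
  have hστ : ∀ σ : ℝ, 0 < σ → σ * τ σ = P * σ ^ α := by
    intro σ hσ
    rw [hτ]
    simp only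
    have : σ ^ α = σ * σ ^ (-(a * α)) := by
      conv_rhs => rw [show σ * σ ^ (-(a * α)) = σ ^ (1:ℝ) * σ ^ (-(a * α)) by rw [Real.rpow_one]]
      rw [← Real.rpow_add hσ, haα]
      congr 1; ring
    rw [this]; ring
  have fb : ∀ σ : ℝ, 0 < σ → ∀ z ∈ A, z ∈ Good K σ → dep K z ≤ τ σ := by
    intro σ hσ z hz hzG
    rw [hA] at hz
    obtain ⟨hzK, w, hw1, hw2⟩ := hzG
    rcases (dep_nonneg (K := K) z).lt_or_eq with hd | hd
    · have hwK : w ∈ K := mem_of_dep_pos (by linarith)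
      have h := hU1 K hK w z (σ + dep K z) (dep K z) hd (by linarith)
        (cball_sub hK.compact.isClosed hwK hw2) (by linarith)
      rw [← ha, ← hb] at h
      have e1 : σ ^ a ≤ (σ + dep K z) ^ a := Real.rpow_le_rpow hσ.le (by linarith) ha0
      have hσa : 0 < σ ^ a := Real.rpow_pos_of_pos hσ _
      have e2 : c * σ ^ a * (dep K z) ^ b ≤ t := by
        refine le_trans ?_ (h.trans hz.2)
        have : 0 ≤ (dep K z) ^ b := Real.rpow_nonneg hd.le _
        apply mul_le_mul_of_nonneg_right _ this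
        exact mul_le_mul_of_nonneg_left e1 hc.le
      have e3 : (dep K z) ^ b ≤ t / c * (σ ^ a)⁻¹ := by
        rw [← div_eq_mul_inv, le_div_iff₀ hσa, le_div_iff₀ hc]
        linarith
      have e4 := Real.rpow_le_rpow (Real.rpow_nonneg hd.le _) e3 hα0.le
      rw [← Real.rpow_mul hd.le, hbα, Real.rpow_one, Real.mul_rpow htc.le (by positivity), ← hxk,
        ← Real.rpow_mul hx0.le, ← hP, Real.inv_rpow hσa.le, ← Real.rpow_mul hσ.le, ← Real.rpow_neg hσ.le] at e4
      rw [hτ]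
      exact e4
    · rw [← hd]; exact (hτ0 σ hσ).le
  have hτ2 : ∀ σ : ℝ, x / 2 ≤ σ → τ σ ≤ 2 * x := by
    intro σ hσ
    have hσ0 : 0 < σ := by linarith
    rw [hτ]
    simp only
    have e1 : σ ^ (-(a * α)) ≤ (x / 2) ^ (-(a * α)) :=
      Real.rpow_le_rpow_of_nonpos (by positivity) hσ (by linarith)
    have e2 : P * (x / 2) ^ (-(a * α)) = x * 2 ^ (a * α) := by
      rw [hP, Real.div_rpow hx0.le (by norm_num), Real.rpow_neg (by norm_num : (0:ℝ) ≤ 2), div_inv_eq_mul,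
        ← mul_assoc, ← Real.rpow_add hx0, hkα]
      rw [show 1 + a * α + -(a * α) = 1 by ring, Real.rpow_one]
    have e3 : (2:ℝ) ^ (a * α) ≤ 2 := by
      calc (2:ℝ) ^ (a * α) ≤ 2 ^ (1:ℝ) := Real.rpow_le_rpow_of_exponent_le (by norm_num) (by linarith)
        _ = 2 := Real.rpow_one 2
    calc P * σ ^ (-(a * α)) ≤ P * (x / 2) ^ (-(a * α)) := mul_le_mul_of_nonneg_left e1 hP0.le
      _ = x * 2 ^ (a * α) := e2
      _ ≤ 2 * x := by nlinarith
  -- large x
  rcases lt_or_ge (1 / 8 : ℝ) x with hx8 | hx8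
  · have e1 : (volume A).toReal ≤ V := by rw [hV]; exact mono A K le_rfl hAK
    have e2 : (1:ℝ) ≤ 8 ^ (k * α) * P := by
      rw [hP, ← Real.mul_rpow (by norm_num) hx0.le]
      exact Real.one_le_rpow (by linarith) (by positivity)
    calc (volume A).toReal ≤ V := e1
      _ ≤ V * (8 ^ (k * α) * P) := by nlinarith
      _ ≤ C' * P := by
        rw [hC']
        have e3 : 0 ≤ V * (16 * k + 20 * k ^ 2 * G + 6 * k ^ 2) * P := by positivity
        linarith
  -- small x: dyadic scales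
  obtain ⟨σ, hσ⟩ : ∃ σ : ℕ → ℝ, σ = fun j => (1 / 8 : ℝ) * (1 / 2) ^ j := ⟨_, rfl⟩
  have hσ0 : ∀ j, 0 < σ j := by intro j; rw [hσ]; positivity
  have hσs : ∀ j, σ j = 2 * σ (j + 1) := by
    intro j; rw [hσ]; simp only; rw [pow_succ]; ring
  have hσle : ∀ j, σ j ≤ 1 / 8 := by
    intro j
    rw [hσ]
    have : ((1:ℝ) / 2) ^ j ≤ 1 := pow_le_one₀ (by norm_num) (by norm_num)
    simp only
    linarith
  have hex : ∃ J, σ J ≤ x := by
    obtain ⟨J, hJ⟩ := exists_pow_lt_of_lt_one hx0 (by norm_num : (1:ℝ) / 2 < 1)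
    refine ⟨J, ?_⟩
    rw [hσ]
    have : (0:ℝ) < (1 / 2) ^ J := by positivity
    simp only
    linarith
  classical
  obtain ⟨J, hJ1, hJ2⟩ : ∃ J, σ J ≤ x ∧ ∀ j, j ≤ J → x / 2 ≤ σ j := by
    refine ⟨Nat.find hex, Nat.find_spec hex, fun j hj => ?_⟩
    rcases Nat.eq_zero_or_pos j with rfl | hj0
    · have : σ 0 = 1 / 8 := by rw [hσ]; simp
      rw [this]; linarith
    · have h6 : ¬ σ (j - 1) ≤ x := Nat.find_min hex (by omega)
      push Not at h6
      have h7 := hσs (j - 1)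
      rw [show j - 1 + 1 = j by omega] at h7
      linarith
  -- decomposition
  have dec : ∀ n : ℕ, (volume A).toReal ≤ (volume (A ∩ Good K (σ 0))).toReal +
      ∑ j ∈ Finset.range n, (volume ((A ∩ Good K (σ (j + 1))) \ Good K (σ j))).toReal +
      (volume (A \ Good K (σ n))).toReal := by
    intro n
    induction n with
    | zero =>
      simp only [Finset.range_zero, Finset.sum_empty, add_zero]
      refine le_trans ?_ (union _ _ (inter_subset_left.trans hAK) (sdiff_subset.trans hAK))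
      refine mono _ _ (union_subset (inter_subset_left.trans hAK) (sdiff_subset.trans hAK)) ?_
      intro z hz
      by_cases h : z ∈ Good K (σ 0)
      · exact Or.inl ⟨hz, h⟩
      · exact Or.inr ⟨hz, h⟩
    | succ n ih =>
      rw [Finset.sum_range_succ]
      have h6 : (volume (A \ Good K (σ n))).toReal ≤
          (volume ((A ∩ Good K (σ (n + 1))) \ Good K (σ n))).toReal + (volume (A \ Good K (σ (n + 1)))).toReal := by
        have s1 : (A ∩ Good K (σ (n + 1))) \ Good K (σ n) ⊆ K := sdiff_subset.trans (inter_subset_left.trans hAK)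
        have s2 : A \ Good K (σ (n + 1)) ⊆ K := sdiff_subset.trans hAK
        refine le_trans ?_ (union _ _ s1 s2)
        refine mono _ _ (union_subset s1 s2) ?_
        intro z hz
        by_cases h : z ∈ Good K (σ (n + 1))
        · exact Or.inl ⟨⟨hz.1, h⟩, hz.2⟩
        · exact Or.inr ⟨hz.1, h⟩
      linarith
  -- top
  have top : (volume (A ∩ Good K (σ 0))).toReal ≤ 16 * k * V * P := by
    have e1 : (volume (A ∩ Good K (σ 0))).toReal ≤ (volume {z | z ∈ K ∧ dep K z < 2 * τ (σ 0)}).toReal := by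
      refine mono _ _ (fun z hz => hz.1) ?_
      intro z hz
      have := fb (σ 0) (hσ0 0) z hz.1 hz.2
      exact ⟨hAK hz.1, by linarith [hτ0 (σ 0) (hσ0 0)]⟩
    have e2 := h4 k hk K hK hB (2 * τ (σ 0)) (by linarith [hτ0 (σ 0) (hσ0 0)])
    have e3 : τ (σ 0) ≤ 8 * P := by
      have h6 := hστ (σ 0) (hσ0 0)
      have h7 : σ 0 = 1 / 8 := by rw [hσ]; simp
      rw [h7] at h6 ⊢
      have h8 : ((1:ℝ) / 8) ^ α ≤ 1 := Real.rpow_le_one (by norm_num) (by norm_num) hα0.le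
      nlinarith
    rw [← hV] at e2
    have hkV : 0 ≤ (k:ℝ) * V := by positivity
    calc _ ≤ k * (2 * τ (σ 0)) * V := e1.trans e2
      _ = (k * V) * (2 * τ (σ 0)) := by ring
      _ ≤ (k * V) * (2 * (8 * P)) := mul_le_mul_of_nonneg_left (by linarith) hkV
      _ = _ := by ring
  -- bottom
  have bottom : (volume (A \ Good K (σ J))).toReal ≤ 6 * k ^ 2 * V * P := by
    have e1 : (volume (A \ Good K (σ J))).toReal ≤
        (volume {z | z ∈ K ∧ dep K z < 2 * x ∧ z ∉ Good K (σ J)}).toReal := by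
      refine mono _ _ (fun z hz => hz.1) ?_
      intro z hz
      exact ⟨hAK hz.1, by linarith [fa z hz.1], hz.2⟩
    have e2 := h5 k hk K hK hB (σ J) (2 * x) (hσ0 J) (by linarith) (by linarith)
    rw [← hV] at e2
    have e3 : x ^ 2 ≤ P := by
      rw [hP, ← Real.rpow_natCast]
      apply Real.rpow_le_rpow_of_exponent_ge hx0 (by linarith)
      push_cast
      rw [hkα]; linarith
    have hkV : 0 ≤ (k:ℝ) ^ 2 * V := by positivity
    calc _ ≤ k ^ 2 * (σ J + 2 * x) * (2 * x) * V := e1.trans e2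
      _ = (k ^ 2 * V) * ((σ J + 2 * x) * (2 * x)) := by ring
      _ ≤ (k ^ 2 * V) * (6 * P) := by
          apply mul_le_mul_of_nonneg_left _ hkV
          nlinarith
      _ = _ := by ring
  -- middle
  have mid : ∀ j ∈ Finset.range J, (volume ((A ∩ Good K (σ (j + 1))) \ Good K (σ j))).toReal ≤
      20 * k ^ 2 * V * P * ρ ^ j := by
    intro j hj
    rw [Finset.mem_range] at hj
    have hx2 := hJ2 (j + 1) (by omega)
    have ht2 := hτ2 (σ (j + 1)) hx2
    have htp := hτ0 (σ (j + 1)) (hσ0 (j + 1))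
    have hs := hσs j
    have hle := hσle j
    have e1 : (volume ((A ∩ Good K (σ (j + 1))) \ Good K (σ j))).toReal ≤
        (volume {z | z ∈ K ∧ dep K z < 2 * τ (σ (j + 1)) ∧ z ∉ Good K (σ j)}).toReal := by
      refine mono _ _ (fun z hz => hz.1) ?_
      intro z hz
      have := fb (σ (j + 1)) (hσ0 (j + 1)) z hz.1.1 hz.1.2
      exact ⟨hAK hz.1.1, by linarith, hz.2⟩
    have e2 := h5 k hk K hK hB (σ j) (2 * τ (σ (j + 1))) (hσ0 j) (by linarith) (by linarith)
    rw [← hV] at e2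
    have hkV : 0 ≤ (k:ℝ) ^ 2 * V := by positivity
    have e3 := hστ (σ (j + 1)) (hσ0 (j + 1))
    have e4 : (σ (j + 1)) ^ α ≤ ρ ^ j := by
      have h6 : σ (j + 1) ≤ (1 / 2) ^ j := by
        rw [hσ]
        simp only
        rw [pow_succ]
        have : (0:ℝ) < (1 / 2) ^ j := by positivity
        linarith
      calc (σ (j + 1)) ^ α ≤ ((1 / 2 : ℝ) ^ j) ^ α := Real.rpow_le_rpow (hσ0 _).le h6 hα0.le
        _ = ρ ^ j := by
          rw [hρ, ← Real.rpow_natCast, ← Real.rpow_mul (by norm_num), mul_comm, Real.rpow_mul (by norm_num),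
            Real.rpow_natCast]
    calc _ ≤ k ^ 2 * (σ j + 2 * τ (σ (j + 1))) * (2 * τ (σ (j + 1))) * V := e1.trans e2
      _ = (k ^ 2 * V) * ((σ j + 2 * τ (σ (j + 1))) * (2 * τ (σ (j + 1)))) := by ring
      _ ≤ (k ^ 2 * V) * (20 * (σ (j + 1) * τ (σ (j + 1)))) := by
          apply mul_le_mul_of_nonneg_left _ hkV
          nlinarith
      _ = (20 * (k ^ 2 * V) * P) * (σ (j + 1)) ^ α := by rw [e3]; ring
      _ ≤ (20 * (k ^ 2 * V) * P) * ρ ^ j := mul_le_mul_of_nonneg_left e4 (by positivity)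
      _ = _ := by ring
  have msum : ∑ j ∈ Finset.range J, (volume ((A ∩ Good K (σ (j + 1))) \ Good K (σ j))).toReal ≤
      20 * k ^ 2 * V * P * G := by
    refine (Finset.sum_le_sum mid).trans ?_
    rw [← Finset.mul_sum]
    apply mul_le_mul_of_nonneg_left _ (by positivity)
    rw [hG, geom_sum_eq hρ1.ne, ← neg_div_neg_eq, neg_sub, neg_sub, inv_eq_one_div]
    apply div_le_div_of_nonneg_right _ (by linarith)
    have : 0 ≤ ρ ^ J := by positivity
    linarith
  have fin := dec J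
  have e8 : 0 ≤ V * 8 ^ (k * α) * P := by positivity
  calc (volume A).toReal ≤ 16 * k * V * P + 20 * k ^ 2 * V * P * G + 6 * k ^ 2 * V * P := by linarith
    _ ≤ C' * P := by rw [hC']; linarith

end Pool.Agent.W291.RP
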